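import Mathlib
import Pool.Agent.S13718

set_option autoImplicit false

namespace Pool.Agent.Q166.MW

open MeasureTheory Set Filter Topology Pool.Agent.S13718

variable {n : ℕ}

/-- A member of the class: compact, convex, nonempty, with nonempty interior if `b = true`. -/
def Bd (b : Bool) (K : Set (Eu n)) : Prop :=
  IsCompact K ∧ Convex ℝ K ∧ K.Nonempty ∧ (b = true → (interior K).Nonempty)

/-- Symmetry with respect to `H`. -/
def HS (H : Submodule ℝ (Eu n)) (K : Set (Eu n)) : Prop := ∀ x ∈ K, H.reflection x ∈ K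

lemma supp_mono {K L : Set (Eu n)} (hK : K.Nonempty) (hL : IsCompact L) (h : K ⊆ L) (v : Eu n) :
    supp K v ≤ supp L v :=
  supp_le hK fun _ hy => le_supp hL (h hy) v

lemma supp_abs_le' {K : Set (Eu n)} (hK : IsCompact K) (hne : K.Nonempty) {R : ℝ}
    (hR : ∀ y ∈ K, ‖y‖ ≤ R) (v : Eu n) : |supp K v| ≤ R * ‖v‖ := by
  obtain ⟨y, hy, h⟩ := supp_attained hK hne v
  rw [← h]
  calc |inner ℝ y v| ≤ ‖y‖ * ‖v‖ := abs_real_inner_le_norm y v
    _ ≤ R * ‖v‖ := by gcongr; exact hR y hy

/-- Integrability of continuous functions of linear growth. -/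
lemma int_of_bound {f : Eu n → ℝ} (hf : Continuous f) {R : ℝ} (h : ∀ v, |f v| ≤ R * ‖v‖) :
    Integrable (fun v : Eu n => f v * Real.exp (-‖v‖ ^ 2)) := by
  have h1 : Integrable (fun v : Eu n => R * (‖v‖ * Real.exp (-‖v‖ ^ 2))) :=
    gauss_integrable.const_mul R
  refine h1.mono' ?_ ?_
  · apply Continuous.aestronglyMeasurable
    fun_prop
  · refine Filter.Eventually.of_forall fun v => ?_
    rw [Real.norm_eq_abs, abs_mul, abs_of_pos (Real.exp_pos _), ← mul_assoc]
    exact mul_le_mul_of_nonneg_right (h v) (Real.exp_pos _).le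

lemma int_inner (x : Eu n) :
    Integrable (fun v : Eu n => inner ℝ x v * Real.exp (-‖v‖ ^ 2)) :=
  int_of_bound (by fun_prop) (R := ‖x‖) fun v => abs_real_inner_le_norm x v

lemma integral_inner_zero (x : Eu n) :
    ∫ v : Eu n, inner ℝ x v * Real.exp (-‖v‖ ^ 2) = 0 := by
  have h := integral_neg_eq_self (fun v : Eu n => inner ℝ x v * Real.exp (-‖v‖ ^ 2)) volume
  simp only [norm_neg, inner_neg_right, neg_mul, integral_neg] at h
  linarith

lemma supp_trans {K : Set (Eu n)} (hK : IsCompact K) (hne : K.Nonempty) (x v : Eu n) :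
    supp ((fun y : Eu n => y + x) '' K) v = supp K v + inner ℝ x v := by
  have hK' : IsCompact ((fun y : Eu n => y + x) '' K) := hK.image (by fun_prop)
  apply le_antisymm
  · apply supp_le (hne.image _)
    rintro _ ⟨y, hy, rfl⟩
    have := le_supp hK hy v
    simp only [inner_add_left]
    linarith
  · obtain ⟨y, hy, h⟩ := supp_attained hK hne v
    have := le_supp hK' (mem_image_of_mem _ hy) v
    simp only [inner_add_left] at this
    linarith

lemma V_trans {K : Set (Eu n)} (hK : IsCompact K) (hne : K.Nonempty) (x : Eu n) :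
    V ((fun y : Eu n => y + x) '' K) = V K := by
  have h1 : V ((fun y : Eu n => y + x) '' K) =
      ∫ v : Eu n, (supp K v * Real.exp (-‖v‖ ^ 2) + inner ℝ x v * Real.exp (-‖v‖ ^ 2)) := by
    unfold V
    congr 1
    ext v
    rw [supp_trans hK hne]
    ring
  rw [h1, integral_add (supp_integrable hK hne) (int_inner x), integral_inner_zero, add_zero]
  rfl

/-- If `A ⊆ B` have the same mean width they are equal. -/
lemma eq_of_V {A B : Set (Eu n)} (hA : IsCompact A) (hAc : Convex ℝ A) (hAne : A.Nonempty)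
    (hB : IsCompact B) (h : A ⊆ B) (hV : V B ≤ V A) : A = B := by
  apply Subset.antisymm h
  intro b hb
  by_contra hbA
  obtain ⟨f, u, hf1, hf2⟩ := geometric_hahn_banach_closed_point hAc hA.isClosed hbA
  set v : Eu n := (InnerProductSpace.toDual ℝ (Eu n)).symm f with hv
  have hfv : ∀ y : Eu n, inner ℝ y v = f y := by
    intro y
    rw [real_inner_comm, hv, InnerProductSpace.toDual_symm_apply]
  have hBne : B.Nonempty := ⟨b, hb⟩
  have h1 : supp A v < supp B v := by
    have h2 : supp A v ≤ u := supp_le hAne fun y hy => by rw [hfv]; exact (hf1 y hy).le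
    have h3 : u < supp B v := by
      have := le_supp hB hb v
      rw [hfv] at this
      linarith
    linarith
  have hcA := supp_continuous hA
  have hcB := supp_continuous hB
  have hiA := supp_integrable hA hAne
  have hiB := supp_integrable hB hBne
  have h4 : 0 < ∫ v : Eu n, (supp B v - supp A v) * Real.exp (-‖v‖ ^ 2) := by
    refine integral_pos_aux (v := v) (by fun_prop) ?_ ?_ ?_
    · intro w
      exact mul_nonneg (sub_nonneg.2 (supp_mono hAne hB h w)) (Real.exp_pos _).le
    · refine (hiB.sub hiA).congr (Eventually.of_forall fun w => ?_)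
      simp only [Pi.sub_apply]
      ring
    · exact mul_pos (sub_pos.2 h1) (Real.exp_pos _)
  have h5 : ∫ v : Eu n, (supp B v - supp A v) * Real.exp (-‖v‖ ^ 2) = V B - V A := by
    unfold V
    rw [← integral_sub hiB hiA]
    congr 1
    ext w
    ring
  linarith

/-- Continuity of the mean width along decreasing sequences. -/
lemma nested {A : ℕ → Set (Eu n)} (hA : ∀ k, IsCompact (A k)) (hne : ∀ k, (A k).Nonempty)
    (hanti : Antitone A) : Tendsto (fun k => V (A k)) atTop (𝓝 (V (⋂ k, A k))) := by
  obtain ⟨R, hR⟩ := (hA 0).isBounded.exists_norm_le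
  have hR' : ∀ k, ∀ y ∈ A k, ‖y‖ ≤ R := fun k y hy => hR y (hanti (Nat.zero_le k) hy)
  have hI : IsCompact (⋂ k, A k) :=
    (hA 0).of_isClosed_subset (isClosed_iInter fun k => (hA k).isClosed) (iInter_subset _ 0)
  have hIne : (⋂ k, A k).Nonempty :=
    IsCompact.nonempty_iInter_of_sequence_nonempty_isCompact_isClosed A
      (fun k => hanti (Nat.le_succ k)) hne (hA 0) fun k => (hA k).isClosed
  unfold V
  apply tendsto_integral_of_dominated_convergence
    (fun v : Eu n => R * (‖v‖ * Real.exp (-‖v‖ ^ 2)))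
  · intro k
    have := supp_continuous (hA k)
    apply Continuous.aestronglyMeasurable
    fun_prop
  · exact gauss_integrable.const_mul R
  · intro k
    refine Eventually.of_forall fun v => ?_
    rw [Real.norm_eq_abs, abs_mul, abs_of_pos (Real.exp_pos _), ← mul_assoc]
    exact mul_le_mul_of_nonneg_right (supp_abs_le' (hA k) (hne k) (hR' k) v) (Real.exp_pos _).le
  · refine Eventually.of_forall fun v => ?_
    apply Tendsto.mul_const
    have hanti2 : Antitone fun k => supp (A k) v := fun i j hij =>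
      supp_mono (hne j) (hA i) (hanti hij) v
    have hbdd : BddBelow (range fun k => supp (A k) v) := by
      refine ⟨-(R * ‖v‖), ?_⟩
      rintro _ ⟨k, rfl⟩
      exact (abs_le.1 (supp_abs_le' (hA k) (hne k) (hR' k) v)).1
    have hlim := tendsto_atTop_ciInf hanti2 hbdd
    convert hlim using 2
    apply le_antisymm
    · exact le_ciInf fun k => supp_mono hIne (hA k) (iInter_subset _ k) v
    · set c := ⨅ k, supp (A k) v with hc
      have hB : ∀ k, IsCompact (A k ∩ {y : Eu n | c ≤ inner ℝ y v}) := fun k =>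
        (hA k).inter_right (isClosed_le continuous_const (by fun_prop))
      have hBne : ∀ k, (A k ∩ {y : Eu n | c ≤ inner ℝ y v}).Nonempty := by
        intro k
        obtain ⟨y, hy, h⟩ := supp_attained (hA k) (hne k) v
        refine ⟨y, hy, ?_⟩
        show c ≤ inner ℝ y v
        rw [h]
        exact ciInf_le hbdd k
      obtain ⟨y, hy⟩ := IsCompact.nonempty_iInter_of_sequence_nonempty_isCompact_isClosed
        (fun k => A k ∩ {y : Eu n | c ≤ inner ℝ y v})
        (fun k => inter_subset_inter_left _ (hanti (Nat.le_succ k))) hBne (hB 0)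
        fun k => (hB k).isClosed
      have hy1 : y ∈ ⋂ k, A k := mem_iInter.2 fun k => (mem_iInter.1 hy k).1
      have hy2 : c ≤ inner ℝ y v := (mem_iInter.1 hy 0).2
      exact hy2.trans (le_supp hI hy1 v)

/-- The symmetrization axioms, with the Gaussian form of the mean width. -/
structure Ops (H : Submodule ℝ (Eu n)) (b : Bool) (D : Set (Eu n) → Set (Eu n)) : Prop where
  body : ∀ K, Bd b K → Bd b (D K)
  symm : ∀ K, Bd b K → HS H (D K)
  mono : ∀ K L, Bd b K → Bd b L → K ⊆ L → D K ⊆ D L
  width : ∀ K, Bd b K → V (D K) = V K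
  fix : ∀ K, Bd b K → HS H K → D K = K

/-- The closed thickenings. -/
def th (k : ℕ) (K : Set (Eu n)) : Set (Eu n) := Metric.cthickening (1 / ((k : ℝ) + 1)) K

lemma th_pos (k : ℕ) : (0:ℝ) < 1 / ((k : ℝ) + 1) := by positivity

lemma subset_th (k : ℕ) (K : Set (Eu n)) : K ⊆ th k K := Metric.self_subset_cthickening K

lemma th_anti (K : Set (Eu n)) : Antitone fun k => th k K := by
  intro i j hij
  apply Metric.cthickening_mono
  have : (i:ℝ) ≤ j := by exact_mod_cast hij
  gcongr

lemma th_mono (k : ℕ) {K L : Set (Eu n)} (h : K ⊆ L) : th k K ⊆ th k L :=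
  Metric.cthickening_subset_of_subset _ h

lemma th_bd (b : Bool) (k : ℕ) {K : Set (Eu n)} (hK : Bd false K) : Bd b (th k K) := by
  obtain ⟨h1, h2, h3, -⟩ := hK
  refine ⟨h1.cthickening, h2.cthickening _, h3.mono (subset_th k K), fun _ => ?_⟩
  refine Nonempty.mono (Metric.thickening_subset_interior_cthickening _ K) ?_
  exact h3.mono (Metric.self_subset_thickening (th_pos k) K)

lemma th_inter {K : Set (Eu n)} (hK : IsClosed K) : ⋂ k, th k K = K := by
  have h := Metric.closure_eq_iInter_cthickening' K (range fun k : ℕ => 1 / ((k : ℝ) + 1)) (by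
    intro ε hε
    obtain ⟨k, hk⟩ := exists_nat_one_div_lt hε
    exact ⟨_, ⟨k, rfl⟩, th_pos k, hk.le⟩)
  rw [hK.closure_eq] at h
  rw [biInter_range] at h
  exact h.symm

lemma th_HS {H : Submodule ℝ (Eu n)} (k : ℕ) {K : Set (Eu n)} (hK : IsCompact K)
    (hS : HS H K) : HS H (th k K) := by
  intro x hx
  unfold th at hx ⊢
  rw [hK.cthickening_eq_biUnion_closedBall (th_pos k).le] at hx ⊢
  rw [mem_iUnion₂] at hx ⊢
  obtain ⟨y, hy, hxy⟩ := hx
  refine ⟨H.reflection y, hS y hy, ?_⟩
  rw [Metric.mem_closedBall] at hxy ⊢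
  rwa [LinearIsometryEquiv.dist_map]

/-- The closure operator: it turns a symmetrization on either class into one on all compact convex
sets. -/
def clos (D : Set (Eu n) → Set (Eu n)) (K : Set (Eu n)) : Set (Eu n) := ⋂ k, D (th k K)

lemma clos_ops {H : Submodule ℝ (Eu n)} {b : Bool} {D : Set (Eu n) → Set (Eu n)}
    (hD : Ops H b D) : Ops H false (clos D) := by
  have hanti : ∀ K, Bd false K → Antitone fun k => D (th k K) := by
    intro K hK i j hij
    exact hD.mono _ _ (th_bd b j hK) (th_bd b i hK) (th_anti K hij)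
  have hcomp : ∀ K, Bd false K → ∀ k, IsCompact (D (th k K)) := fun K hK k =>
    (hD.body _ (th_bd b k hK)).1
  have hne : ∀ K, Bd false K → ∀ k, (D (th k K)).Nonempty := fun K hK k =>
    (hD.body _ (th_bd b k hK)).2.2.1
  have hI : ∀ K, Bd false K → IsCompact (clos D K) := fun K hK =>
    (hcomp K hK 0).of_isClosed_subset (isClosed_iInter fun k => (hcomp K hK k).isClosed)
      (iInter_subset _ 0)
  refine ⟨?_, ?_, ?_, ?_, ?_⟩
  · intro K hK
    refine ⟨hI K hK, ?_, ?_, by simp⟩
    · exact convex_iInter fun k => (hD.body _ (th_bd b k hK)).2.1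
    · exact IsCompact.nonempty_iInter_of_sequence_nonempty_isCompact_isClosed _
        (fun k => hanti K hK (Nat.le_succ k)) (hne K hK) (hcomp K hK 0)
        fun k => (hcomp K hK k).isClosed
  · intro K hK x hx
    exact mem_iInter.2 fun k => hD.symm _ (th_bd b k hK) x (mem_iInter.1 hx k)
  · intro K L hK hL h
    exact iInter_mono fun k => hD.mono _ _ (th_bd b k hK) (th_bd b k hL) (th_mono k h)
  · intro K hK
    have h1 := nested (hcomp K hK) (hne K hK) (hanti K hK)
    have h2 := nested (A := fun k => th k K) (fun k => (th_bd b k hK).1)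
      (fun k => (th_bd b k hK).2.2.1) (th_anti K)
    rw [th_inter hK.1.isClosed] at h2
    have h3 : (fun k => V (D (th k K))) = fun k => V (th k K) := by
      ext k
      exact hD.width _ (th_bd b k hK)
    rw [h3] at h1
    exact tendsto_nhds_unique h1 h2
  · intro K hK hS
    have h : ∀ k, D (th k K) = th k K := fun k => hD.fix _ (th_bd b k hK) (th_HS k hK.1 hS)
    unfold clos
    simp only [h]
    exact th_inter hK.1.isClosed

lemma subset_clos {H : Submodule ℝ (Eu n)} {b : Bool} {D : Set (Eu n) → Set (Eu n)}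
    (hD : Ops H b D) {K : Set (Eu n)} (hK : Bd b K) : D K ⊆ clos D K := by
  have hK' : Bd false K := ⟨hK.1, hK.2.1, hK.2.2.1, by simp⟩
  exact subset_iInter fun k => hD.mono _ _ hK (th_bd b k hK') (subset_th k K)

end Pool.Agent.Q166.MW
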