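import Pool.Agent.Q166.MW.A

set_option autoImplicit false

namespace Pool.Agent.Q166.MW

open MeasureTheory Set Filter Topology Pool.Agent.S13718

variable {n : ℕ}

lemma HS_hull {H : Submodule ℝ (Eu n)} {s : Set (Eu n)} (hs : HS H s) :
    HS H (convexHull ℝ s) := by
  have h1 : Convex ℝ {x : Eu n | H.reflection x ∈ convexHull ℝ s} :=
    (convex_convexHull ℝ s).linear_preimage (H.reflection.toLinearEquiv : Eu n →ₗ[ℝ] Eu n)
  have h2 : s ⊆ {x : Eu n | H.reflection x ∈ convexHull ℝ s} :=
    fun y hy => subset_convexHull ℝ s (hs y hy)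
  exact fun x hx => convexHull_min h2 h1 hx

lemma bd_hull {s : Set (Eu n)} (hs : s.Finite) (hne : s.Nonempty) :
    Bd false (convexHull ℝ s) :=
  ⟨hs.isCompact_convexHull ℝ, convex_convexHull ℝ s, hne.mono (subset_convexHull ℝ s), by simp⟩

lemma convex_half (v : Eu n) (M : ℝ) : Convex ℝ {x : Eu n | inner ℝ x v ≤ M} := by
  intro x hx y hy a b ha hb hab
  simp only [mem_ofPred_eq, inner_add_left, real_inner_smul_left] at *
  have : M = a * M + b * M := by rw [← add_mul, hab, one_mul]
  rw [this]
  gcongr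

lemma supp_hull_le {s : Set (Eu n)} (hne : s.Nonempty) {v : Eu n} {M : ℝ}
    (h : ∀ x ∈ s, inner ℝ x v ≤ M) : supp (convexHull ℝ s) v ≤ M :=
  supp_le (hne.mono (subset_convexHull ℝ s)) fun _ hy => convexHull_min h (convex_half v M) hy

/-- The open cone. -/
def Gam (p e : Eu n) (β : ℝ) : Set (Eu n) := {v | inner ℝ p v + β * |inner ℝ e v| < 0}

lemma refl_H {H : Submodule ℝ (Eu n)} {q : Eu n} (hq : q ∈ H) : H.reflection q = q :=
  Submodule.reflection_mem_subspace_eq_self hq

lemma refl_O {H : Submodule ℝ (Eu n)} {q : Eu n} (hq : q ∈ Hᗮ) : H.reflection q = -q :=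
  Submodule.reflection_mem_subspace_orthogonalComplement_eq_neg hq

/-- Everything in the image of a segment orthogonal to `H` lies in the same fibre. -/
lemma fibre {H : Submodule ℝ (Eu n)} {D : Set (Eu n) → Set (Eu n)} (hD : Ops H false D)
    {q e y : Eu n} (hq : q ∈ H) (he : e ∈ Hᗮ) (hy : y ∈ Hᗮ) {a : Eu n}
    (ha : a ∈ D (convexHull ℝ {q + y - e, q + y + e})) : a - q ∈ Hᗮ := by
  set s : Set (Eu n) := {q + y - e, q + y + e, q - y + e, q - y - e} with hs
  have hsf : s.Finite := by simp [hs]
  have hsne : s.Nonempty := ⟨q + y - e, by simp [hs]⟩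
  have hsS : HS H s := by
    intro x hx
    simp only [hs, mem_insert_iff, mem_singleton_iff] at hx ⊢
    rcases hx with rfl | rfl | rfl | rfl <;>
      simp only [map_add, map_sub, refl_H hq, refl_O he, refl_O hy]
    · right; right; left; abel
    · right; right; right; abel
    · left; abel
    · right; left; abel
  have h1 : D (convexHull ℝ {q + y - e, q + y + e}) ⊆ convexHull ℝ s := by
    rw [← hD.fix _ (bd_hull hsf hsne) (HS_hull hsS)]
    refine hD.mono _ _ (bd_hull (by simp) ⟨q + y - e, by simp⟩) (bd_hull hsf hsne) ?_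
    apply convexHull_mono
    intro x hx
    simp only [hs, mem_insert_iff, mem_singleton_iff] at hx ⊢
    tauto
  have h2 : convexHull ℝ s ⊆ {z : Eu n | z - q ∈ Hᗮ} := by
    apply convexHull_min
    · intro x hx
      simp only [hs, mem_insert_iff, mem_singleton_iff] at hx
      rcases hx with rfl | rfl | rfl | rfl
      · show q + y - e - q ∈ Hᗮ
        have : q + y - e - q = y - e := by abel
        rw [this]; exact sub_mem hy he
      · show q + y + e - q ∈ Hᗮ
        have : q + y + e - q = y + e := by abel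
        rw [this]; exact add_mem hy he
      · show q - y + e - q ∈ Hᗮ
        have : q - y + e - q = e - y := by abel
        rw [this]; exact sub_mem he hy
      · show q - y - e - q ∈ Hᗮ
        have : q - y - e - q = -(y + e) := by abel
        rw [this]; exact neg_mem (add_mem hy he)
    · intro x hx z hz α γ hα hγ hαγ
      show α • x + γ • z - q ∈ Hᗮ
      have : α • x + γ • z - q = α • (x - q) + γ • (z - q) := by
        have h3 : q = (α + γ) • q := by rw [hαγ, one_smul]
        rw [smul_sub, smul_sub]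
        nth_rewrite 1 [h3]
        rw [add_smul]
        abel
      rw [this]
      exact add_mem (Submodule.smul_mem _ _ hx) (Submodule.smul_mem _ _ hz)
  exact h2 (h1 ha)

lemma refl_fibre {H : Submodule ℝ (Eu n)} {q a : Eu n} (hq : q ∈ H) (ha : a - q ∈ Hᗮ) :
    H.reflection a = q - (a - q) := by
  have : a = q + (a - q) := by abel
  nth_rewrite 1 [this]
  rw [map_add, refl_H hq, refl_O ha]
  abel

lemma int_max {f g : Eu n → ℝ} (hf : Continuous f) (hg : Continuous g) {A B : ℝ}
    (h1 : ∀ v, |f v| ≤ A * ‖v‖) (h2 : ∀ v, |g v| ≤ B * ‖v‖) :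
    Integrable (fun v : Eu n => max (f v) (g v) * Real.exp (-‖v‖ ^ 2)) := by
  refine int_of_bound (hf.max hg) (R := max A B) fun v => ?_
  refine (abs_max_le_max_abs_abs).trans ?_
  rw [max_mul_of_nonneg _ _ (norm_nonneg v)]
  exact max_le_max (h1 v) (h2 v)

lemma bound_h (p e : Eu n) (R β : ℝ) (v : Eu n) :
    |R * (inner ℝ p v + β * |inner ℝ e v|)| ≤ (|R| * (‖p‖ + |β| * ‖e‖)) * ‖v‖ := by
  rw [abs_mul, mul_assoc]
  apply mul_le_mul_of_nonneg_left _ (abs_nonneg R)
  refine (abs_add_le _ _).trans ?_
  rw [abs_mul, abs_abs, add_mul, mul_assoc]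
  have h1 := abs_real_inner_le_norm p v
  have h2 := abs_real_inner_le_norm e v
  gcongr

lemma bound_x (y e : Eu n) (v : Eu n) :
    |inner ℝ y v + abs (inner ℝ e v)| ≤ (‖y‖ + ‖e‖) * ‖v‖ := by
  refine (abs_add_le _ _).trans ?_
  rw [abs_abs, add_mul]
  exact add_le_add (abs_real_inner_le_norm y v) (abs_real_inner_le_norm e v)

/-- The main inequality. -/
lemma ineqI {H : Submodule ℝ (Eu n)} {D : Set (Eu n) → Set (Eu n)} (hD : Ops H false D)
    {q p e y : Eu n} (hq : q ∈ H) (hp : p ∈ H) (he : e ∈ Hᗮ) (hy : y ∈ Hᗮ) {a : Eu n}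
    (ha : a ∈ D (convexHull ℝ {q + y - e, q + y + e})) {R β : ℝ} (hR : 0 ≤ R) (hβ : 0 ≤ β) :
    ∫ v : Eu n, max |inner ℝ (a - q) v| (R * (inner ℝ p v + β * |inner ℝ e v|)) *
        Real.exp (-‖v‖ ^ 2) ≤
      ∫ v : Eu n, max (inner ℝ y v + |inner ℝ e v|) (R * (inner ℝ p v + β * |inner ℝ e v|)) *
        Real.exp (-‖v‖ ^ 2) := by
  have haO := fibre hD hq he hy ha
  set S : Set (Eu n) := {q + y - e, q + y + e} with hS
  set L : Set (Eu n) := {q + R • p - (R * β) • e, q + R • p + (R * β) • e} with hL
  have hSf : S.Finite := by simp [hS]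
  have hLf : L.Finite := by simp [hL]
  have hSne : S.Nonempty := ⟨q + y - e, by simp [hS]⟩
  have hLne : L.Nonempty := ⟨q + R • p - (R * β) • e, by simp [hL]⟩
  have hC : Bd false (convexHull ℝ (S ∪ L)) := bd_hull (hSf.union hLf) (hSne.mono subset_union_left)
  have hSC : convexHull ℝ S ⊆ convexHull ℝ (S ∪ L) := convexHull_mono subset_union_left
  have hLC : convexHull ℝ L ⊆ convexHull ℝ (S ∪ L) := convexHull_mono subset_union_right
  have hLS : HS H L := by
    intro x hx
    simp only [hL, mem_insert_iff, mem_singleton_iff] at hx ⊢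
    rcases hx with rfl | rfl <;>
      simp only [map_add, map_sub, map_smul, refl_H hq, refl_O he, refl_H hp]
    · right; rw [smul_neg]; abel
    · left; rw [smul_neg]; abel
  have hLD : convexHull ℝ L ⊆ D (convexHull ℝ (S ∪ L)) := by
    rw [← hD.fix _ (bd_hull hLf hLne) (HS_hull hLS)]
    exact hD.mono _ _ (bd_hull hLf hLne) hC hLC
  have haD : a ∈ D (convexHull ℝ (S ∪ L)) := hD.mono _ _ (bd_hull hSf hSne) hC hSC ha
  have haD' : q - (a - q) ∈ D (convexHull ℝ (S ∪ L)) := by
    rw [← refl_fibre hq haO]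
    exact hD.symm _ hC a haD
  obtain ⟨hDc, hDcx, hDne, -⟩ := hD.body _ hC
  set C := convexHull ℝ (S ∪ L) with hCdef
  have hwid : V (D C) = V C := hD.width _ hC
  have low : ∀ v : Eu n, inner ℝ q v + max |inner ℝ (a - q) v|
      (R * (inner ℝ p v + β * |inner ℝ e v|)) ≤ supp (D C) v := by
    intro v
    rw [← max_add_add_left]
    apply max_le
    · have h1 := le_supp hDc haD v
      have h2 := le_supp hDc haD' v
      have h3 : inner ℝ a v = inner ℝ q v + inner ℝ (a - q) v := by
        rw [← inner_add_left]; congr 1; abel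
      rw [inner_sub_left] at h2
      rw [h3] at h1
      rcases abs_cases (inner ℝ (a - q) v) with ⟨h4, -⟩ | ⟨h4, -⟩ <;> rw [h4] <;> linarith
    · have h1 := le_supp hDc (hLD (subset_convexHull ℝ L
        (show q + R • p - (R * β) • e ∈ L by simp [hL]))) v
      have h2 := le_supp hDc (hLD (subset_convexHull ℝ L
        (show q + R • p + (R * β) • e ∈ L by simp [hL]))) v
      simp only [inner_add_left, inner_sub_left, real_inner_smul_left] at h1 h2
      rcases abs_cases (inner ℝ e v) with ⟨h4, -⟩ | ⟨h4, -⟩ <;> rw [h4] <;> nlinarith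
  have upp : ∀ v : Eu n, supp C v ≤ inner ℝ q v + max (inner ℝ y v + |inner ℝ e v|)
      (R * (inner ℝ p v + β * |inner ℝ e v|)) := by
    intro v
    apply supp_hull_le (hSne.mono subset_union_left)
    intro x hx
    rw [← max_add_add_left]
    have hRβ : 0 ≤ R * β := mul_nonneg hR hβ
    rcases hx with hx | hx
    · apply le_max_of_le_left
      simp only [hS, mem_insert_iff, mem_singleton_iff] at hx
      rcases hx with rfl | rfl
      · simp only [inner_add_left, inner_sub_left]
        have := neg_abs_le (inner ℝ e v)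
        linarith
      · simp only [inner_add_left]
        have := le_abs_self (inner ℝ e v)
        linarith
    · apply le_max_of_le_right
      simp only [hL, mem_insert_iff, mem_singleton_iff] at hx
      rcases hx with rfl | rfl
      · simp only [inner_add_left, inner_sub_left, real_inner_smul_left]
        have h5 := neg_abs_le (inner ℝ e v)
        have h6 := mul_le_mul_of_nonneg_left h5 hRβ
        linarith
      · simp only [inner_add_left, real_inner_smul_left]
        have h5 := le_abs_self (inner ℝ e v)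
        have h6 := mul_le_mul_of_nonneg_left h5 hRβ
        linarith
  have i1 : Integrable (fun v : Eu n => max |inner ℝ (a - q) v|
      (R * (inner ℝ p v + β * |inner ℝ e v|)) * Real.exp (-‖v‖ ^ 2)) := by
    refine int_max (A := ‖a - q‖) (B := |R| * (‖p‖ + |β| * ‖e‖)) (by fun_prop) (by fun_prop) ?_
      (bound_h p e R β)
    intro v
    rw [abs_abs]
    exact abs_real_inner_le_norm _ v
  have i2 : Integrable (fun v : Eu n => max (inner ℝ y v + |inner ℝ e v|)
      (R * (inner ℝ p v + β * |inner ℝ e v|)) * Real.exp (-‖v‖ ^ 2)) :=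
    int_max (A := ‖y‖ + ‖e‖) (B := |R| * (‖p‖ + |β| * ‖e‖)) (by fun_prop) (by fun_prop)
      (bound_x y e) (bound_h p e R β)
  have j1 : ∫ v : Eu n, (inner ℝ q v * Real.exp (-‖v‖ ^ 2) + max |inner ℝ (a - q) v|
      (R * (inner ℝ p v + β * |inner ℝ e v|)) * Real.exp (-‖v‖ ^ 2)) ≤ V (D C) := by
    apply integral_mono ((int_inner q).add i1) (supp_integrable hDc hDne)
    intro v
    simp only [Pi.add_apply]
    rw [← add_mul]
    exact mul_le_mul_of_nonneg_right (low v) (Real.exp_pos _).le
  have j2 : V C ≤ ∫ v : Eu n, (inner ℝ q v * Real.exp (-‖v‖ ^ 2) +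
      max (inner ℝ y v + |inner ℝ e v|)
      (R * (inner ℝ p v + β * |inner ℝ e v|)) * Real.exp (-‖v‖ ^ 2)) := by
    apply integral_mono (supp_integrable hC.1 hC.2.2.1) ((int_inner q).add i2)
    intro v
    simp only [Pi.add_apply]
    rw [← add_mul]
    exact mul_le_mul_of_nonneg_right (upp v) (Real.exp_pos _).le
  rw [integral_add (int_inner q) i1] at j1
  rw [integral_add (int_inner q) i2] at j2
  linarith

/-- The limit of the truncated integrals. -/
lemma lim_aux {x h : Eu n → ℝ} (hx : Continuous x) (hh : Continuous h) {A : ℝ}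
    (hA : ∀ v, |x v| ≤ A * ‖v‖) (hnull : volume {v : Eu n | h v = 0} = 0) :
    Tendsto (fun k : ℕ => ∫ v : Eu n, (max (x v) (k * h v) - max 0 (k * h v)) *
      Real.exp (-‖v‖ ^ 2)) atTop
      (𝓝 (∫ v : Eu n, {v : Eu n | h v < 0}.indicator (fun v => x v * Real.exp (-‖v‖ ^ 2)) v)) := by
  apply tendsto_integral_of_dominated_convergence
    (fun v : Eu n => A * (‖v‖ * Real.exp (-‖v‖ ^ 2)))
  · intro k
    apply Continuous.aestronglyMeasurable
    fun_prop
  · exact gauss_integrable.const_mul A
  · intro k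
    refine Eventually.of_forall fun v => ?_
    rw [Real.norm_eq_abs, abs_mul, abs_of_pos (Real.exp_pos _), ← mul_assoc]
    apply mul_le_mul_of_nonneg_right _ (Real.exp_pos _).le
    refine le_trans (abs_max_sub_max_le_abs _ _ _) ?_
    rw [sub_zero]
    exact hA v
  · have hae : ∀ᵐ v : Eu n, h v ≠ 0 := by
      rw [ae_iff]
      simpa using hnull
    filter_upwards [hae] with v hv
    rcases lt_or_gt_of_ne hv with hlt | hgt
    · rw [indicator_of_mem (show v ∈ {v : Eu n | h v < 0} from hlt)]
      apply tendsto_const_nhds.congr'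
      have h1 : Tendsto (fun k : ℕ => (k:ℝ) * h v) atTop atBot :=
        tendsto_natCast_atTop_atTop.atTop_mul_const_of_neg hlt
      filter_upwards [h1.eventually_le_atBot (x v), h1.eventually_le_atBot 0] with k h2 h3
      rw [max_eq_left h2, max_eq_left h3, sub_zero]
    · rw [indicator_of_notMem (show v ∉ {v : Eu n | h v < 0} from not_lt.2 hgt.le)]
      apply tendsto_const_nhds.congr'
      have h1 : Tendsto (fun k : ℕ => (k:ℝ) * h v) atTop atTop :=
        tendsto_natCast_atTop_atTop.atTop_mul_const hgt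
      filter_upwards [h1.eventually_ge_atTop (x v), h1.eventually_ge_atTop 0] with k h2 h3
      rw [max_eq_right h2, max_eq_right h3, sub_self, zero_mul]

lemma null_hyper {u : Eu n} (hu : u ≠ 0) : volume {v : Eu n | inner ℝ u v = 0} = 0 := by
  have h1 : {v : Eu n | inner ℝ u v = 0} = ((ℝ ∙ u)ᗮ : Submodule ℝ (Eu n)) := by
    ext v
    simp [Submodule.mem_orthogonal_singleton_iff_inner_right]
  rw [h1]
  apply Measure.addHaar_submodule
  intro h2
  have h3 : u ∈ (ℝ ∙ u)ᗮ := by rw [h2]; trivial
  rw [Submodule.mem_orthogonal_singleton_iff_inner_right] at h3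
  exact hu (inner_self_eq_zero.1 h3)

lemma null_cone {p e : Eu n} (hp : p ≠ 0) (hpe : inner ℝ p e = 0) (β : ℝ) :
    volume {v : Eu n | inner ℝ p v + β * |inner ℝ e v| = 0} = 0 := by
  have h1 : ∀ s : ℝ, p + s • e ≠ 0 := by
    intro s h
    have h2 : inner ℝ p (p + s • e) = 0 := by rw [h, inner_zero_right]
    rw [inner_add_right, inner_smul_right, hpe, mul_zero, add_zero] at h2
    exact hp (inner_self_eq_zero.1 h2)
  have h2 : {v : Eu n | inner ℝ p v + β * |inner ℝ e v| = 0} ⊆
      {v | inner ℝ (p + β • e) v = 0} ∪ {v | inner ℝ (p + (-β) • e) v = 0} := by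
    intro v hv
    simp only [mem_ofPred_eq, mem_union, inner_add_left, real_inner_smul_left] at hv ⊢
    rcases abs_cases (inner ℝ e v) with ⟨h4, -⟩ | ⟨h4, -⟩ <;> rw [h4] at hv
    · left; exact hv
    · right; linarith
  refine measure_mono_null h2 ?_
  exact measure_union_null (null_hyper (h1 β)) (null_hyper (h1 (-β)))

/-- The cone inequality. -/
lemma ineqII {H : Submodule ℝ (Eu n)} {D : Set (Eu n) → Set (Eu n)} (hD : Ops H false D)
    {q p e y : Eu n} (hq : q ∈ H) (hp : p ∈ H) (hp0 : p ≠ 0) (he : e ∈ Hᗮ) (hy : y ∈ Hᗮ)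
    {a : Eu n} (ha : a ∈ D (convexHull ℝ {q + y - e, q + y + e})) {β : ℝ} (hβ : 0 ≤ β) :
    ∫ v : Eu n, (Gam p e β).indicator (fun v => |inner ℝ (a - q) v| * Real.exp (-‖v‖ ^ 2)) v ≤
      ∫ v : Eu n, (Gam p e β).indicator (fun v => |inner ℝ e v| * Real.exp (-‖v‖ ^ 2)) v := by
  have hpe : inner ℝ p e = 0 := Submodule.inner_right_of_mem_orthogonal hp he
  set h : Eu n → ℝ := fun v => inner ℝ p v + β * |inner ℝ e v| with hh
  have hc : Continuous h := by rw [hh]; fun_prop
  have hnull : volume {v : Eu n | h v = 0} = 0 := null_cone hp0 hpe β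
  have l1 := lim_aux (x := fun v => |inner ℝ (a - q) v|) (h := h) (A := ‖a - q‖) (by fun_prop) hc
    (fun v => by rw [abs_abs]; exact abs_real_inner_le_norm _ v) hnull
  have l2 := lim_aux (x := fun v => inner ℝ y v + |inner ℝ e v|) (h := h) (A := ‖y‖ + ‖e‖)
    (by fun_prop) hc (bound_x y e) hnull
  have key : ∀ k : ℕ, ∫ v : Eu n, (max |inner ℝ (a - q) v| (k * h v) - max 0 (k * h v)) *
      Real.exp (-‖v‖ ^ 2) ≤ ∫ v : Eu n, (max (inner ℝ y v + |inner ℝ e v|) (k * h v) -
        max 0 (k * h v)) * Real.exp (-‖v‖ ^ 2) := by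
    intro k
    have m1 := ineqI hD hq hp he hy ha (R := (k:ℝ)) (Nat.cast_nonneg k) hβ
    have i0 : Integrable (fun v : Eu n => max 0 (k * h v) * Real.exp (-‖v‖ ^ 2)) :=
      int_max (f := fun _ => 0) (A := 0) (B := |(k:ℝ)| * (‖p‖ + |β| * ‖e‖)) (by fun_prop)
        (by fun_prop) (by simp) (bound_h p e k β)
    have i1 : Integrable (fun v : Eu n => max |inner ℝ (a - q) v| (k * h v) *
        Real.exp (-‖v‖ ^ 2)) := by
      refine int_max (A := ‖a - q‖) (B := |(k:ℝ)| * (‖p‖ + |β| * ‖e‖)) (by fun_prop)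
        (by fun_prop) ?_ (bound_h p e k β)
      intro v
      rw [abs_abs]
      exact abs_real_inner_le_norm _ v
    have i2 : Integrable (fun v : Eu n => max (inner ℝ y v + |inner ℝ e v|) (k * h v) *
        Real.exp (-‖v‖ ^ 2)) :=
      int_max (A := ‖y‖ + ‖e‖) (B := |(k:ℝ)| * (‖p‖ + |β| * ‖e‖)) (by fun_prop) (by fun_prop)
        (bound_x y e) (bound_h p e k β)
    simp only [sub_mul]
    rw [integral_sub i1 i0, integral_sub i2 i0]
    exact sub_le_sub_right m1 _
  have l3 := le_of_tendsto_of_tendsto' l1 l2 key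
  -- the linear part integrates to zero
  have hG : MeasurableSet (Gam p e β) := by
    apply IsOpen.measurableSet
    exact isOpen_lt hc continuous_const
  have odd : ∫ v : Eu n, (Gam p e β).indicator
      (fun v => inner ℝ y v * Real.exp (-‖v‖ ^ 2)) v = 0 := by
    set g : Eu n → ℝ := (Gam p e β).indicator (fun v => inner ℝ y v * Real.exp (-‖v‖ ^ 2)) with hg
    have h1 : ∫ v, g (H.reflection v) = ∫ v, g v :=
      (H.reflection.measurePreserving).integral_comp
        H.reflection.toHomeomorph.measurableEmbedding g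
    have h2 : ∀ v, g (H.reflection v) = -g v := by
      intro v
      have e1 : inner ℝ p (H.reflection v) = inner ℝ p v := by
        have := H.reflection.inner_map_map p v
        rwa [refl_H hp] at this
      have e2 : inner ℝ e (H.reflection v) = -inner ℝ e v := by
        have := H.reflection.inner_map_map e v
        rw [refl_O he, inner_neg_left] at this
        linarith
      have e3 : inner ℝ y (H.reflection v) = -inner ℝ y v := by
        have := H.reflection.inner_map_map y v
        rw [refl_O hy, inner_neg_left] at this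
        linarith
      have e4 : (H.reflection v ∈ Gam p e β) ↔ v ∈ Gam p e β := by
        unfold Gam
        simp only [mem_ofPred_eq, e1, e2, abs_neg]
      by_cases hv : v ∈ Gam p e β
      · rw [hg, indicator_of_mem (e4.2 hv), indicator_of_mem hv, e3,
          LinearIsometryEquiv.norm_map]
        ring
      · rw [hg, indicator_of_notMem (fun h => hv (e4.1 h)), indicator_of_notMem hv, neg_zero]
    simp only [h2, integral_neg] at h1
    linarith
  have split : ∫ v : Eu n, {v : Eu n | h v < 0}.indicator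
      (fun v => (inner ℝ y v + |inner ℝ e v|) * Real.exp (-‖v‖ ^ 2)) v =
      ∫ v : Eu n, (Gam p e β).indicator (fun v => |inner ℝ e v| * Real.exp (-‖v‖ ^ 2)) v := by
    have j1 : Integrable (fun v : Eu n => |inner ℝ e v| * Real.exp (-‖v‖ ^ 2)) :=
      int_of_bound (R := ‖e‖) (by fun_prop) fun v => by
        rw [abs_abs]; exact abs_real_inner_le_norm _ v
    have h1 : ∀ v : Eu n, {v : Eu n | h v < 0}.indicator
      (fun v => (inner ℝ y v + |inner ℝ e v|) * Real.exp (-‖v‖ ^ 2)) v =
      (Gam p e β).indicator (fun v => inner ℝ y v * Real.exp (-‖v‖ ^ 2)) v +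
      (Gam p e β).indicator (fun v => |inner ℝ e v| * Real.exp (-‖v‖ ^ 2)) v := by
      intro v
      by_cases hv : v ∈ Gam p e β
      · rw [indicator_of_mem hv, indicator_of_mem hv, indicator_of_mem (show v ∈ {v | h v < 0} from hv)]
        ring
      · rw [indicator_of_notMem hv, indicator_of_notMem hv,
          indicator_of_notMem (show v ∉ {v | h v < 0} from hv), add_zero]
    simp only [h1]
    rw [integral_add ((int_inner y).indicator hG) (j1.indicator hG), odd, zero_add]
  calc _ ≤ _ := l3
    _ = _ := split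

end Pool.Agent.Q166.MW
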