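import Pool.Agent.Q166.MW.B

set_option autoImplicit false

namespace Pool.Agent.Q166.MW

open MeasureTheory Set Filter Topology Pool.Agent.S13718

variable {n : ℕ}

/-- Contraction by the factor `c` in direction `e`. -/
noncomputable def Tc (e : Eu n) (c : ℝ) : Eu n →ₗ[ℝ] Eu n :=
  LinearMap.id - ((1 - c) / ‖e‖ ^ 2) • ((innerₛₗ ℝ e).smulRight e)

lemma Tc_apply (e : Eu n) (c : ℝ) (v : Eu n) :
    Tc e c v = v - ((1 - c) / ‖e‖ ^ 2 * inner ℝ e v) • e := by
  simp [Tc, smul_smul]

lemma inner_Tc {p e : Eu n} (hpe : inner ℝ p e = 0) (c : ℝ) (v : Eu n) :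
    inner ℝ p (Tc e c v) = inner ℝ p v := by
  rw [Tc_apply, inner_sub_right, inner_smul_right, hpe, mul_zero, sub_zero]

lemma inner_e_Tc {e : Eu n} (he : e ≠ 0) (c : ℝ) (v : Eu n) :
    inner ℝ e (Tc e c v) = c * inner ℝ e v := by
  have : ‖e‖ ≠ 0 := norm_ne_zero_iff.2 he
  rw [Tc_apply, inner_sub_right, inner_smul_right, real_inner_self_eq_norm_sq]
  field_simp
  ring

lemma norm_Tc {e : Eu n} (he : e ≠ 0) (c : ℝ) (v : Eu n) :
    ‖Tc e c v‖ ^ 2 = ‖v‖ ^ 2 - (1 - c ^ 2) * (inner ℝ e v) ^ 2 / ‖e‖ ^ 2 := by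
  have : ‖e‖ ≠ 0 := norm_ne_zero_iff.2 he
  rw [Tc_apply, norm_sub_sq_real, norm_smul, mul_pow, Real.norm_eq_abs, sq_abs,
    inner_smul_right, real_inner_comm]
  field_simp
  ring

lemma det_ne {e : Eu n} (he : e ≠ 0) {c : ℝ} (hc : c ≠ 0) : LinearMap.det (Tc e c) ≠ 0 := by
  intro h
  have h1 := LinearMap.bot_lt_ker_of_det_eq_zero h
  apply h1.ne'
  rw [LinearMap.ker_eq_bot']
  intro v hv
  have h2 := inner_e_Tc he c v
  rw [hv, inner_zero_right] at h2
  have h3 : inner ℝ e v = 0 := by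
    rcases mul_eq_zero.1 h2.symm with h4 | h4
    · exact absurd h4 hc
    · exact h4
  rw [Tc_apply, h3, mul_zero, zero_smul, sub_zero] at hv
  exact hv

lemma cov {T : Eu n →ₗ[ℝ] Eu n} (hT : LinearMap.det T ≠ 0) {g : Eu n → ℝ} (hg : Measurable g) :
    ∫ v, g (T v) = |(LinearMap.det T)⁻¹| * ∫ v, g v := by
  have hTm : Measurable (T : Eu n → Eu n) := T.continuous_of_finiteDimensional.measurable
  rw [← integral_map hTm.aemeasurable hg.aestronglyMeasurable,
    Measure.map_linearMap_addHaar_eq_smul_addHaar volume hT, integral_smul_measure,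
    ENNReal.toReal_ofReal (abs_nonneg _), smul_eq_mul]

lemma exp_int {b : ℝ} (hb : 0 < b) : Integrable (fun v : Eu n => Real.exp (-b * ‖v‖ ^ 2)) := by
  by_contra h
  have h1 := GaussianFourier.integral_rexp_neg_mul_sq_norm (V := Eu n) hb
  rw [integral_undef h] at h1
  have : (0:ℝ) < (Real.pi / b) ^ (Module.finrank ℝ (Eu n) / 2 : ℝ) := by positivity
  linarith

lemma gauss_int {b : ℝ} (hb : 0 < b) :
    Integrable (fun v : Eu n => ‖v‖ * Real.exp (-b * ‖v‖ ^ 2)) := by
  refine ((exp_int (n := n) (half_pos hb)).const_mul (1 / b + 1)).mono' (by fun_prop) ?_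
  refine Filter.Eventually.of_forall fun v => ?_
  rw [Real.norm_eq_abs, abs_mul, abs_of_pos (Real.exp_pos _), abs_of_nonneg (norm_nonneg v)]
  have h1 : ‖v‖ ≤ (1 / b + 1) * Real.exp ((b/2) * ‖v‖ ^ 2) := by
    have h2 := Real.add_one_le_exp ((b/2) * ‖v‖ ^ 2)
    have h3 : ‖v‖ ≤ (1 / b + 1) * ((b/2) * ‖v‖ ^ 2 + 1) := by
      have h4 : (1 / b + 1) * ((b/2) * ‖v‖ ^ 2 + 1) =
          (1/2) * ‖v‖ ^ 2 + 1 + (b/2) * ‖v‖ ^ 2 + 1 / b := by
        field_simp
        ring
      rw [h4]
      have h5 : 0 ≤ (b/2) * ‖v‖ ^ 2 := by positivity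
      have h6 : 0 < 1 / b := by positivity
      nlinarith [sq_nonneg (‖v‖ - 1)]
    refine h3.trans ?_
    apply mul_le_mul_of_nonneg_left h2 (by positivity)
  calc ‖v‖ * Real.exp (-b * ‖v‖ ^ 2)
      ≤ ((1 / b + 1) * Real.exp ((b/2) * ‖v‖ ^ 2)) * Real.exp (-b * ‖v‖ ^ 2) := by gcongr
    _ = (1 / b + 1) * Real.exp (-(b / 2) * ‖v‖ ^ 2) := by
        rw [mul_assoc, ← Real.exp_add]; ring_nf

lemma gam_bound {p e : Eu n} (he : e ≠ 0) (hpe : inner ℝ p e = 0) {c : ℝ} (_ : 0 ≤ c)
    {v : Eu n} (hv : v ∈ Gam p e 1) :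
    (‖e‖ ^ 2 / (‖e‖ ^ 2 + ‖p‖ ^ 2)) * ‖v‖ ^ 2 ≤ ‖Tc e c v‖ ^ 2 := by
  have hen : 0 < ‖e‖ := norm_pos_iff.2 he
  have h1 : |inner ℝ e v| < -inner ℝ p v := by
    have : inner ℝ p v + 1 * |inner ℝ e v| < 0 := hv
    linarith
  have h2 : (inner ℝ e v) ^ 2 ≤ (inner ℝ p v) ^ 2 := by
    rw [← sq_abs (inner ℝ e v), ← neg_sq (inner ℝ p v)]
    exact pow_le_pow_left₀ (abs_nonneg _) h1.le 2
  have h3 : (inner ℝ p v) ^ 2 ≤ ‖p‖ ^ 2 * ‖Tc e 0 v‖ ^ 2 := by
    rw [← inner_Tc hpe 0 v, ← mul_pow, ← sq_abs (inner ℝ p _)]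
    exact pow_le_pow_left₀ (abs_nonneg _) (abs_real_inner_le_norm _ _) 2
  have h4 := norm_Tc he 0 v
  have h5 := norm_Tc he c v
  have h6 : 0 ≤ (inner ℝ e v) ^ 2 / ‖e‖ ^ 2 := by positivity
  have h7 : ‖Tc e 0 v‖ ^ 2 ≤ ‖Tc e c v‖ ^ 2 := by
    rw [h4, h5, mul_div_assoc, mul_div_assoc]
    have : (1 - c ^ 2) ≤ (1 - (0:ℝ) ^ 2) := by nlinarith
    have := mul_le_mul_of_nonneg_right this h6
    linarith
  refine le_trans ?_ h7
  rw [div_mul_eq_mul_div, div_le_iff₀ (by positivity)]
  have h8 : ‖v‖ ^ 2 = ‖Tc e 0 v‖ ^ 2 + (inner ℝ e v) ^ 2 / ‖e‖ ^ 2 := by rw [h4]; ring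
  have h9 : ‖e‖ ^ 2 * ‖v‖ ^ 2 = ‖e‖ ^ 2 * ‖Tc e 0 v‖ ^ 2 + (inner ℝ e v) ^ 2 := by
    rw [h8]; field_simp
  rw [h9]
  nlinarith

lemma norm_Tc_le {e : Eu n} (he : e ≠ 0) {c : ℝ} (hc0 : 0 ≤ c) (hc1 : c ≤ 1) (v : Eu n) :
    ‖Tc e c v‖ ≤ ‖v‖ := by
  have h5 := norm_Tc he c v
  have h6 : 0 ≤ (1 - c ^ 2) * (inner ℝ e v) ^ 2 / ‖e‖ ^ 2 := by
    have : 0 ≤ 1 - c ^ 2 := by nlinarith
    positivity
  have h7 : ‖Tc e c v‖ ^ 2 ≤ ‖v‖ ^ 2 := by linarith
  exact (pow_le_pow_iff_left₀ (norm_nonneg _) (norm_nonneg _) two_ne_zero).1 h7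

lemma gam_meas (p e : Eu n) (β : ℝ) : MeasurableSet (Gam p e β) := by
  apply IsOpen.measurableSet
  exact isOpen_lt (by fun_prop) continuous_const

/-- The cone inequality after rescaling. -/
lemma ineqIII {H : Submodule ℝ (Eu n)} {D : Set (Eu n) → Set (Eu n)} (hD : Ops H false D)
    {q p e y : Eu n} (hq : q ∈ H) (hp : p ∈ H) (hp0 : p ≠ 0) (he : e ∈ Hᗮ) (he0 : e ≠ 0)
    (hy : y ∈ Hᗮ) {a : Eu n} (ha : a ∈ D (convexHull ℝ {q + y - e, q + y + e})) {c : ℝ}
    (hc : 0 < c) :
    ∫ v : Eu n, (Gam p e 1).indicator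
      (fun v => |inner ℝ (a - q) (Tc e c v)| * Real.exp (-‖Tc e c v‖ ^ 2)) v ≤
    ∫ v : Eu n, (Gam p e 1).indicator
      (fun v => c * |inner ℝ e v| * Real.exp (-‖Tc e c v‖ ^ 2)) v := by
  have hpe : inner ℝ p e = 0 := Submodule.inner_right_of_mem_orthogonal hp he
  have h1 := ineqII hD hq hp hp0 he hy ha (β := 1 / c) (by positivity)
  have hdet := det_ne he0 hc.ne'
  have hmem : ∀ v : Eu n, Tc e c v ∈ Gam p e (1 / c) ↔ v ∈ Gam p e 1 := by
    intro v
    unfold Gam
    simp only [mem_ofPred_eq, inner_Tc hpe, inner_e_Tc he0, abs_mul, abs_of_pos hc]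
    have : 1 / c * (c * |inner ℝ e v|) = 1 * |inner ℝ e v| := by field_simp
    rw [this]
  have m1 : Measurable ((Gam p e (1 / c)).indicator
      (fun v => |inner ℝ (a - q) v| * Real.exp (-‖v‖ ^ 2))) :=
    Measurable.indicator (by fun_prop) (gam_meas _ _ _)
  have m2 : Measurable ((Gam p e (1 / c)).indicator
      (fun v => |inner ℝ e v| * Real.exp (-‖v‖ ^ 2))) :=
    Measurable.indicator (by fun_prop) (gam_meas _ _ _)
  have c1 := cov hdet m1
  have c2 := cov hdet m2
  have h2 := mul_le_mul_of_nonneg_left h1 (abs_nonneg (LinearMap.det (Tc e c))⁻¹)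
  rw [← c1, ← c2] at h2
  have e1 : ∀ v : Eu n, (Gam p e (1 / c)).indicator
      (fun v => |inner ℝ (a - q) v| * Real.exp (-‖v‖ ^ 2)) (Tc e c v) =
      (Gam p e 1).indicator
      (fun v => |inner ℝ (a - q) (Tc e c v)| * Real.exp (-‖Tc e c v‖ ^ 2)) v := by
    intro v
    by_cases hv : v ∈ Gam p e 1
    · rw [indicator_of_mem ((hmem v).2 hv), indicator_of_mem hv]
    · rw [indicator_of_notMem (fun h => hv ((hmem v).1 h)), indicator_of_notMem hv]
  have e2 : ∀ v : Eu n, (Gam p e (1 / c)).indicator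
      (fun v => |inner ℝ e v| * Real.exp (-‖v‖ ^ 2)) (Tc e c v) =
      (Gam p e 1).indicator
      (fun v => c * |inner ℝ e v| * Real.exp (-‖Tc e c v‖ ^ 2)) v := by
    intro v
    by_cases hv : v ∈ Gam p e 1
    · rw [indicator_of_mem ((hmem v).2 hv), indicator_of_mem hv, inner_e_Tc he0, abs_mul,
        abs_of_pos hc]
    · rw [indicator_of_notMem (fun h => hv ((hmem v).1 h)), indicator_of_notMem hv]
  simp only [e1, e2] at h2
  exact h2

/-- The limiting inequality. -/
lemma ineqIV {H : Submodule ℝ (Eu n)} {D : Set (Eu n) → Set (Eu n)} (hD : Ops H false D)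
    {q p e y : Eu n} (hq : q ∈ H) (hp : p ∈ H) (hp0 : p ≠ 0) (he : e ∈ Hᗮ) (he0 : e ≠ 0)
    (hy : y ∈ Hᗮ) {a : Eu n} (ha : a ∈ D (convexHull ℝ {q + y - e, q + y + e})) :
    ∫ v : Eu n, (Gam p e 1).indicator
      (fun v => |inner ℝ (a - q) (Tc e 0 v)| * Real.exp (-‖Tc e 0 v‖ ^ 2)) v ≤ 0 := by
  have hpe : inner ℝ p e = 0 := Submodule.inner_right_of_mem_orthogonal hp he
  set κ : ℝ := ‖e‖ ^ 2 / (‖e‖ ^ 2 + ‖p‖ ^ 2) with hκ
  have hen : 0 < ‖e‖ := norm_pos_iff.2 he0
  have hκ0 : 0 < κ := by positivity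
  have hexp : ∀ (c : ℝ), 0 ≤ c → ∀ v ∈ Gam p e 1,
      Real.exp (-‖Tc e c v‖ ^ 2) ≤ Real.exp (-κ * ‖v‖ ^ 2) := by
    intro c hc v hv
    apply Real.exp_le_exp.2
    have := gam_bound he0 hpe hc hv
    rw [← hκ] at this
    linarith
  set cc : ℕ → ℝ := fun k => 1 / ((k:ℝ) + 1) with hcc
  have hcpos : ∀ k, 0 < cc k := fun k => by simp only [hcc]; positivity
  have hcle : ∀ k, cc k ≤ 1 := fun k => by
    simp only [hcc]
    rw [div_le_one (by positivity)]
    have : (0:ℝ) ≤ k := Nat.cast_nonneg k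
    linarith
  have hclim : Tendsto cc atTop (𝓝 0) := tendsto_one_div_add_atTop_nhds_zero_nat
  have hcontT : ∀ v : Eu n, Tendsto (fun k => Tc e (cc k) v) atTop (𝓝 (Tc e 0 v)) := by
    intro v
    simp only [Tc_apply]
    exact tendsto_const_nhds.sub
      ((((tendsto_const_nhds.sub hclim).div_const _).mul_const _).smul_const e)
  have hcT : ∀ c : ℝ, Continuous fun v : Eu n => Tc e c v := fun c =>
    (Tc e c).continuous_of_finiteDimensional
  have L1 : Tendsto (fun k => ∫ v : Eu n, (Gam p e 1).indicator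
      (fun v => |inner ℝ (a - q) (Tc e (cc k) v)| * Real.exp (-‖Tc e (cc k) v‖ ^ 2)) v) atTop
      (𝓝 (∫ v : Eu n, (Gam p e 1).indicator
      (fun v => |inner ℝ (a - q) (Tc e 0 v)| * Real.exp (-‖Tc e 0 v‖ ^ 2)) v)) := by
    apply tendsto_integral_of_dominated_convergence
      (fun v : Eu n => ‖a - q‖ * (‖v‖ * Real.exp (-κ * ‖v‖ ^ 2)))
    · intro k
      have := hcT (cc k)
      exact (Measurable.indicator (by fun_prop) (gam_meas _ _ _)).aestronglyMeasurable
    · exact (gauss_int hκ0).const_mul _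
    · intro k
      refine Eventually.of_forall fun v => ?_
      by_cases hv : v ∈ Gam p e 1
      · rw [indicator_of_mem hv, Real.norm_eq_abs, abs_mul, abs_abs, abs_of_pos (Real.exp_pos _),
          ← mul_assoc]
        have h1 := abs_real_inner_le_norm (a - q) (Tc e (cc k) v)
        have h2 := norm_Tc_le he0 (hcpos k).le (hcle k) v
        have h3 := hexp (cc k) (hcpos k).le v hv
        gcongr
        exact h1.trans (mul_le_mul_of_nonneg_left h2 (norm_nonneg _))
      · rw [indicator_of_notMem hv, norm_zero]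
        positivity
    · refine Eventually.of_forall fun v => ?_
      by_cases hv : v ∈ Gam p e 1
      · simp only [indicator_of_mem hv]
        have h1 : Continuous fun z : Eu n => |inner ℝ (a - q) z| * Real.exp (-‖z‖ ^ 2) := by
          fun_prop
        exact (h1.tendsto _).comp (hcontT v)
      · simp only [indicator_of_notMem hv]
        exact tendsto_const_nhds
  set M : ℝ := ∫ v : Eu n, ‖e‖ * (‖v‖ * Real.exp (-κ * ‖v‖ ^ 2)) with hM
  have L2 : Tendsto (fun k => cc k * M) atTop (𝓝 0) := by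
    have := hclim.mul_const M
    rwa [zero_mul] at this
  refine le_of_tendsto_of_tendsto' L1 L2 fun k => ?_
  refine (ineqIII hD hq hp hp0 he he0 hy ha (hcpos k)).trans ?_
  rw [hM, ← integral_const_mul]
  apply integral_mono_of_nonneg
  · refine Eventually.of_forall fun v => ?_
    apply indicator_nonneg
    intro v hv
    have := hcpos k
    positivity
  · exact ((gauss_int hκ0).const_mul _).const_mul _
  · refine Eventually.of_forall fun v => ?_
    by_cases hv : v ∈ Gam p e 1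
    · simp only [indicator_of_mem hv]
      have h1 := abs_real_inner_le_norm e v
      have h3 := hexp (cc k) (hcpos k).le v hv
      have := hcpos k
      rw [mul_assoc, ← mul_assoc ‖e‖]
      gcongr
    · simp only [indicator_of_notMem hv]
      have := hcpos k
      positivity

/-- All points of the image of the segment lie on the line `q + ℝ e`. -/
lemma on_line {H : Submodule ℝ (Eu n)} {D : Set (Eu n) → Set (Eu n)} (hD : Ops H false D)
    {q p e y : Eu n} (hq : q ∈ H) (hp : p ∈ H) (hp0 : p ≠ 0) (he : e ∈ Hᗮ) (he0 : e ≠ 0)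
    (hy : y ∈ Hᗮ) {a : Eu n} (ha : a ∈ D (convexHull ℝ {q + y - e, q + y + e})) :
    a - q = (inner ℝ e (a - q) / ‖e‖ ^ 2) • e := by
  have hpe : inner ℝ p e = 0 := Submodule.inner_right_of_mem_orthogonal hp he
  have hen : 0 < ‖e‖ := norm_pos_iff.2 he0
  have haO := fibre hD hq he hy ha
  have h4 := ineqIV hD hq hp hp0 he he0 hy ha
  set a' := a - q with ha'
  set w : Eu n := a' - (inner ℝ e a' / ‖e‖ ^ 2) • e with hw
  by_contra hne
  have hw0 : w ≠ 0 := fun h => hne (sub_eq_zero.1 h)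
  have hew : inner ℝ e w = 0 := by
    rw [hw, inner_sub_right, inner_smul_right, real_inner_self_eq_norm_sq]
    field_simp
    ring
  have hwO : w ∈ Hᗮ := sub_mem haO (Submodule.smul_mem _ _ he)
  have hpw : inner ℝ p w = 0 := Submodule.inner_right_of_mem_orthogonal hp hwO
  have hpa : inner ℝ p a' = 0 := Submodule.inner_right_of_mem_orthogonal hp haO
  set v0 : Eu n := -p + w with hv0
  have hev0 : inner ℝ e v0 = 0 := by
    rw [hv0, inner_add_right, inner_neg_right, hew, real_inner_comm, hpe]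
    simp
  have hpv0 : inner ℝ p v0 = -‖p‖ ^ 2 := by
    rw [hv0, inner_add_right, inner_neg_right, hpw, real_inner_self_eq_norm_sq, add_zero]
  have hT0 : Tc e 0 v0 = v0 := by
    rw [Tc_apply, hev0]
    simp
  have haw : inner ℝ a' v0 = ‖w‖ ^ 2 := by
    have h1 : a' = w + (inner ℝ e a' / ‖e‖ ^ 2) • e := by rw [hw]; abel
    rw [hv0, inner_add_right, inner_neg_right, real_inner_comm, hpa]
    nth_rewrite 1 [h1]
    rw [inner_add_left, real_inner_smul_left, hew, real_inner_self_eq_norm_sq]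
    ring
  set κ : ℝ := ‖e‖ ^ 2 / (‖e‖ ^ 2 + ‖p‖ ^ 2) with hκ
  have hκ0 : 0 < κ := by positivity
  set ψ : Eu n → ℝ := fun v => min 1 (max 0 (-(inner ℝ p v + 1 * |inner ℝ e v|))) with hψ
  have hψ0 : ∀ v, 0 ≤ ψ v := fun v => le_min zero_le_one (le_max_left _ _)
  have hψ1 : ∀ v, ψ v ≤ 1 := fun v => min_le_left _ _
  have hψG : ∀ v, v ∉ Gam p e 1 → ψ v = 0 := by
    intro v hv
    have h1 : 0 ≤ inner ℝ p v + 1 * |inner ℝ e v| := not_lt.1 hv
    have h2 : max 0 (-(inner ℝ p v + 1 * |inner ℝ e v|)) = 0 := max_eq_left (by linarith)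
    rw [hψ]
    simp only
    rw [h2]
    simp
  have hcT : Continuous fun v : Eu n => Tc e 0 v := (Tc e 0).continuous_of_finiteDimensional
  set F : Eu n → ℝ := fun v => ψ v * (|inner ℝ a' (Tc e 0 v)| * Real.exp (-‖Tc e 0 v‖ ^ 2)) with hF
  have hFc : Continuous F := by
    have : Continuous ψ := by rw [hψ]; fun_prop
    rw [hF]
    fun_prop
  have hind : ∀ v, F v ≤ (Gam p e 1).indicator
      (fun v => |inner ℝ a' (Tc e 0 v)| * Real.exp (-‖Tc e 0 v‖ ^ 2)) v := by
    intro v
    by_cases hv : v ∈ Gam p e 1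
    · rw [indicator_of_mem hv]
      exact mul_le_of_le_one_left (by positivity) (hψ1 v)
    · rw [indicator_of_notMem hv]
      simp only [hF]
      rw [hψG v hv, zero_mul]
  have hF0 : ∀ v, 0 ≤ F v := fun v => mul_nonneg (hψ0 v) (by positivity)
  have hindint : Integrable ((Gam p e 1).indicator
      (fun v => |inner ℝ a' (Tc e 0 v)| * Real.exp (-‖Tc e 0 v‖ ^ 2))) := by
    refine ((gauss_int (n := n) hκ0).const_mul ‖a'‖).mono'
      (Measurable.indicator (by fun_prop) (gam_meas _ _ _)).aestronglyMeasurable ?_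
    refine Eventually.of_forall fun v => ?_
    by_cases hv : v ∈ Gam p e 1
    · rw [indicator_of_mem hv, Real.norm_eq_abs, abs_mul, abs_abs, abs_of_pos (Real.exp_pos _),
          ← mul_assoc]
      have h1 := abs_real_inner_le_norm a' (Tc e 0 v)
      have h2 := norm_Tc_le he0 le_rfl zero_le_one v
      have h3 : Real.exp (-‖Tc e 0 v‖ ^ 2) ≤ Real.exp (-κ * ‖v‖ ^ 2) := by
        apply Real.exp_le_exp.2
        have := gam_bound he0 hpe le_rfl hv
        rw [← hκ] at this
        linarith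
      gcongr
      exact h1.trans (mul_le_mul_of_nonneg_left h2 (norm_nonneg _))
    · rw [indicator_of_notMem hv, norm_zero]
      positivity
  have hFint : Integrable F := by
    refine hindint.mono hFc.aestronglyMeasurable ?_
    refine Eventually.of_forall fun v => ?_
    rw [Real.norm_eq_abs, Real.norm_eq_abs, abs_of_nonneg (hF0 v),
      abs_of_nonneg ((hF0 v).trans (hind v))]
    exact hind v
  have hpos : 0 < ∫ v, F v := by
    refine integral_pos_aux (v := v0) hFc hF0 hFint ?_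
    simp only [hF]
    rw [hT0, haw]
    have hp1 : 0 < ‖p‖ := norm_pos_iff.2 hp0
    have hw1 : 0 < ‖w‖ := norm_pos_iff.2 hw0
    have h5 : 0 < ψ v0 := by
      simp only [hψ]
      apply lt_min one_pos
      apply lt_max_of_lt_right
      rw [hpv0, hev0]
      simp
      positivity
    have h6 : 0 < |‖w‖ ^ 2| := abs_pos.2 (by positivity)
    positivity
  have hle := integral_mono hFint hindint hind
  linarith

/-- The symmetral of a translated symmetric segment contains the endpoint. -/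
lemma end_mem {H : Submodule ℝ (Eu n)} {D : Set (Eu n) → Set (Eu n)} (hD : Ops H false D)
    {q p e y : Eu n} (hq : q ∈ H) (hp : p ∈ H) (hp0 : p ≠ 0) (he : e ∈ Hᗮ)
    (hy : y ∈ Hᗮ) : q + e ∈ D (convexHull ℝ {q + y - e, q + y + e}) := by
  set S : Set (Eu n) := {q + y - e, q + y + e} with hS
  have hSf : S.Finite := by simp [hS]
  have hSne : S.Nonempty := ⟨q + y - e, by simp [hS]⟩
  have hB : Bd false (convexHull ℝ S) := bd_hull hSf hSne
  obtain ⟨hDc, hDcx, hDne, -⟩ := hD.body _ hB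
  have hwid := hD.width _ hB
  have hsym := hD.symm _ hB
  by_cases he0 : e = 0
  · obtain ⟨a, ha⟩ := hDne
    have haO := fibre hD hq he hy ha
    have hr := hsym a ha
    rw [refl_fibre hq haO] at hr
    have hSV : V (convexHull ℝ S) ≤ 0 := by
      rw [← integral_inner_zero (q + y)]
      apply integral_mono (supp_integrable hB.1 hB.2.2.1) (int_inner _)
      intro v
      apply mul_le_mul_of_nonneg_right _ (Real.exp_pos _).le
      apply supp_hull_le hSne
      intro x hx
      simp only [hS, he0, sub_zero, add_zero, mem_insert_iff, mem_singleton_iff, or_self] at hx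
      rw [hx]
    by_cases hq' : a - q = 0
    · have : a = q + e := by rw [he0, add_zero]; exact sub_eq_zero.1 hq'
      rw [← this]
      exact ha
    · exfalso
      have hne : a ≠ q - (a - q) := by
        intro h
        apply hq'
        have h1 : (2:ℝ) • (a - q) = 0 := by
          have : (2:ℝ) • (a - q) = a - (q - (a - q)) := by rw [two_smul]; abel
          rw [this, ← h, sub_self]
        rcases smul_eq_zero.1 h1 with h2 | h2
        · norm_num at h2
        · exact h2
      have := V_pos hDc ha hr hne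
      rw [hwid] at this
      linarith
  · have hen : 0 < ‖e‖ := norm_pos_iff.2 he0
    -- a point of maximal height in the direction `e`
    have hcont : Continuous fun z : Eu n => inner ℝ e z := by fun_prop
    obtain ⟨a, ha, hmax⟩ := hDc.exists_isMaxOn hDne hcont.continuousOn
    set I : ℝ := ∫ v : Eu n, |inner ℝ e v| * Real.exp (-‖v‖ ^ 2) with hI
    have iI : Integrable (fun v : Eu n => |inner ℝ e v| * Real.exp (-‖v‖ ^ 2)) :=
      int_of_bound (R := ‖e‖) (by fun_prop) fun v => by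
        rw [abs_abs]; exact abs_real_inner_le_norm _ v
    have hIpos : 0 < I := by
      refine integral_pos_aux (v := e) (by fun_prop) (fun v => by positivity) iI ?_
      rw [real_inner_self_eq_norm_sq]
      have : 0 < |‖e‖ ^ 2| := abs_pos.2 (by positivity)
      positivity
    set s : ℝ := inner ℝ e (a - q) / ‖e‖ ^ 2 with hs
    have hal := on_line hD hq hp hp0 he he0 hy ha
    rw [← hs] at hal
    have hbd : ∀ b ∈ D (convexHull ℝ S), ∃ t : ℝ, |t| ≤ s ∧ b - q = t • e := by
      intro b hb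
      have hbO := fibre hD hq he hy hb
      have hr := hsym b hb
      rw [refl_fibre hq hbO] at hr
      refine ⟨inner ℝ e (b - q) / ‖e‖ ^ 2, ?_, on_line hD hq hp hp0 he he0 hy hb⟩
      have h1 : inner ℝ e b ≤ inner ℝ e a := hmax hb
      have h2 : inner ℝ e (q - (b - q)) ≤ inner ℝ e a := hmax hr
      have h3 : inner ℝ e (b - q) ≤ inner ℝ e (a - q) := by
        rw [inner_sub_right, inner_sub_right]; linarith
      have h4 : -inner ℝ e (b - q) ≤ inner ℝ e (a - q) := by
        rw [inner_sub_right] at h2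
        rw [inner_sub_right _ a q]; linarith
      rw [abs_div, abs_of_pos (by positivity : (0:ℝ) < ‖e‖ ^ 2), hs]
      apply div_le_div_of_nonneg_right _ (by positivity)
      exact abs_le.2 ⟨by linarith, h3⟩
    have up : V (D (convexHull ℝ S)) ≤ s * I := by
      have h1 : V (D (convexHull ℝ S)) ≤ ∫ v : Eu n, (inner ℝ q v * Real.exp (-‖v‖ ^ 2) +
          s * (|inner ℝ e v| * Real.exp (-‖v‖ ^ 2))) := by
        apply integral_mono (supp_integrable hDc ⟨a, ha⟩) ((int_inner q).add (iI.const_mul s))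
        intro v
        simp only [Pi.add_apply]
        rw [← mul_assoc, ← add_mul]
        apply mul_le_mul_of_nonneg_right _ (Real.exp_pos _).le
        apply supp_le ⟨a, ha⟩
        intro b hb
        obtain ⟨t, ht, hbt⟩ := hbd b hb
        have h2 : b = q + t • e := by rw [← hbt]; abel
        rw [h2, inner_add_left, real_inner_smul_left]
        have h3 : t * inner ℝ e v ≤ s * |inner ℝ e v| := by
          calc t * inner ℝ e v ≤ |t * inner ℝ e v| := le_abs_self _
            _ = |t| * |inner ℝ e v| := abs_mul _ _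
            _ ≤ s * |inner ℝ e v| := by gcongr
        linarith
      rwa [integral_add (int_inner q) (iI.const_mul s), integral_inner_zero, zero_add,
        integral_const_mul] at h1
    have lo : I ≤ V (convexHull ℝ S) := by
      have h1 : ∫ v : Eu n, (inner ℝ (q + y) v * Real.exp (-‖v‖ ^ 2) +
          |inner ℝ e v| * Real.exp (-‖v‖ ^ 2)) ≤ V (convexHull ℝ S) := by
        apply integral_mono ((int_inner (q + y)).add iI) (supp_integrable hB.1 hB.2.2.1)
        intro v
        simp only [Pi.add_apply]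
        rw [← add_mul]
        apply mul_le_mul_of_nonneg_right _ (Real.exp_pos _).le
        have h2 := le_supp hB.1 (subset_convexHull ℝ S (show q + y - e ∈ S by simp [hS])) v
        have h3 := le_supp hB.1 (subset_convexHull ℝ S (show q + y + e ∈ S by simp [hS])) v
        rw [inner_sub_left] at h2
        rw [inner_add_left] at h3
        rcases abs_cases (inner ℝ e v) with ⟨h4, -⟩ | ⟨h4, -⟩ <;> rw [h4] <;> linarith
      rwa [integral_add (int_inner _) iI, integral_inner_zero, zero_add] at h1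
    have hs1 : 1 ≤ s := by
      by_contra hlt
      push Not at hlt
      have : s * I < 1 * I := mul_lt_mul_of_pos_right hlt hIpos
      rw [hwid] at up
      linarith
    have haO := fibre hD hq he hy ha
    have hr := hsym a ha
    rw [refl_fibre hq haO] at hr
    have hs0 : 0 < s := by linarith
    have hmem := hDcx ha hr (a := (1 + 1 / s) / 2) (b := (1 - 1 / s) / 2) (by positivity)
      (by have : 1 / s ≤ 1 := by rw [div_le_one hs0]; exact hs1
          linarith) (by ring)
    convert hmem using 1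
    have h5 : a = q + s • e := by rw [← hal]; abel
    rw [hal]
    nth_rewrite 1 [h5]
    have h6 : (1:ℝ) = (1 + 1 / s) / 2 * s - (1 - 1 / s) / 2 * s := by field_simp; ring
    have h7 : (1:ℝ) = (1 + 1 / s) / 2 + (1 - 1 / s) / 2 := by ring
    calc q + e = ((1 + 1 / s) / 2 + (1 - 1 / s) / 2) • q +
          ((1 + 1 / s) / 2 * s - (1 - 1 / s) / 2 * s) • e := by rw [← h7, ← h6, one_smul, one_smul]
      _ = _ := by module

/-- The rigidity theorem on all compact convex sets. -/
theorem main_false {H : Submodule ℝ (Eu n)} (hH : H ≠ ⊥) {D : Set (Eu n) → Set (Eu n)}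
    (hD : Ops H false D) {K : Set (Eu n)} (hK : Bd false K) (hS : HS H K) {y : Eu n}
    (hy : y ∈ Hᗮ) : D ((fun z : Eu n => z + y) '' K) = K := by
  obtain ⟨p, hp, hp0⟩ := (Submodule.ne_bot_iff H).1 hH
  have hKy : Bd false ((fun z : Eu n => z + y) '' K) := by
    refine ⟨hK.1.image (by fun_prop), ?_, hK.2.2.1.image _, by simp⟩
    have := hK.2.1.translate y
    simpa only [add_comm y] using this
  have hsub : K ⊆ D ((fun z : Eu n => z + y) '' K) := by
    intro x hx
    set q : Eu n := H.starProjection x with hq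
    have hqH : q ∈ H := Submodule.starProjection_apply_mem H x
    have heO : x - q ∈ Hᗮ := Submodule.sub_starProjection_mem_orthogonal x
    have h1 := end_mem hD (y := y) hqH hp hp0 heO hy
    have h2 : q + (x - q) = x := by abel
    rw [h2] at h1
    refine hD.mono _ _ (bd_hull (by simp) ⟨q + y - (x - q), by simp⟩) hKy ?_ h1
    apply convexHull_min _ hKy.2.1
    intro z hz
    simp only [mem_insert_iff, mem_singleton_iff] at hz
    rcases hz with rfl | rfl
    · refine ⟨H.reflection x, hS x hx, ?_⟩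
      simp only
      rw [refl_fibre hqH heO]
      abel
    · refine ⟨x, hx, ?_⟩
      simp only
      abel
  symm
  refine eq_of_V hK.1 hK.2.1 hK.2.2.1 (hD.body _ hKy).1 hsub ?_
  rw [hD.width _ hKy, V_trans hK.1 hK.2.2.1]

/-- The rigidity theorem. -/
theorem main {H : Submodule ℝ (Eu n)} (hH : H ≠ ⊥) {b : Bool} {D : Set (Eu n) → Set (Eu n)}
    (hD : Ops H b D) {K : Set (Eu n)} (hK : Bd b K) (hS : HS H K) {y : Eu n}
    (hy : y ∈ Hᗮ) : D ((fun z : Eu n => z + y) '' K) = K := by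
  have hK' : Bd false K := ⟨hK.1, hK.2.1, hK.2.2.1, by simp⟩
  have hKy : Bd b ((fun z : Eu n => z + y) '' K) := by
    refine ⟨hK.1.image (by fun_prop), ?_, hK.2.2.1.image _, ?_⟩
    · have := hK.2.1.translate y
      simpa only [add_comm y] using this
    · intro hb
      have hop : IsOpenMap (fun z : Eu n => z + y) := (Homeomorph.addRight y).isOpenMap
      have h1 := hop _ (isOpen_interior (s := K))
      exact ((hK.2.2.2 hb).image _).mono (interior_maximal (image_mono interior_subset) h1)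
  have h1 := main_false hH (clos_ops hD) hK' hS hy
  have h2 := subset_clos hD hKy
  rw [h1] at h2
  obtain ⟨h3, h4, h5, -⟩ := hD.body _ hKy
  refine eq_of_V h3 h4 h5 hK.1 h2 ?_
  rw [hD.width _ hKy, V_trans hK.1 hK.2.2.1]

end Pool.Agent.Q166.MW
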