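import Pool.Agent.Q166.MW.C

set_option autoImplicit false

namespace Pool.Agent.Q166.MW

open MeasureTheory Set Metric Pool.Agent.S13718

variable {n : ℕ}

/-- The mean width `w(K) = (2 / (n κ_n)) ∫_{S^{n-1}} h_K(u) du`, where `h_K` is the support
function and `κ_n` the volume of the unit ball. -/
noncomputable def meanWidth (K : Set (Eu n)) : ℝ :=
  2 / (n * (volume (ball (0 : Eu n) 1)).toReal) *
    ∫ u : sphere (0 : Eu n) 1, sSup ((fun y : Eu n => inner ℝ y (u : Eu n)) '' K)
      ∂((volume : Measure (Eu n)).toSphere)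

lemma supp_smul {K : Set (Eu n)} (hK : IsCompact K) (hne : K.Nonempty) {r : ℝ} (hr : 0 < r)
    (u : Eu n) : supp K (r • u) = supp K u * r := by
  apply le_antisymm
  · apply supp_le hne
    intro y hy
    rw [inner_smul_right, mul_comm]
    exact mul_le_mul_of_nonneg_right (le_supp hK hy u) hr.le
  · obtain ⟨y, hy, h⟩ := supp_attained hK hne u
    rw [← h, mul_comm, ← inner_smul_right]
    exact le_supp hK hy _

/-- The radial constant. -/
noncomputable def cst (n : ℕ) : ℝ :=
  ∫ r : Ioi (0:ℝ), (r : ℝ) * Real.exp (-(r:ℝ) ^ 2)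
    ∂(Measure.volumeIoiPow (Module.finrank ℝ (Eu n) - 1))

lemma V_polar {K : Set (Eu n)} (hK : IsCompact K) (hne : K.Nonempty) :
    V K = (∫ u : sphere (0 : Eu n) 1, supp K (u : Eu n)
      ∂((volume : Measure (Eu n)).toSphere)) * cst n := by
  set f : Eu n → ℝ := fun v => supp K v * Real.exp (-‖v‖ ^ 2) with hf
  by_cases hn : Nontrivial (Eu n)
  · calc V K = ∫ x : ({(0 : Eu n)}ᶜ : Set (Eu n)), f x.1
          ∂((volume : Measure (Eu n)).comap (↑)) := by
          rw [integral_subtype_comap (measurableSet_singleton _).compl fun x ↦ f x,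
            restrict_compl_singleton]
          rfl
      _ = ∫ z : sphere (0 : Eu n) 1 × Ioi (0:ℝ), f (z.2.1 • z.1.1)
          ∂((volume : Measure (Eu n)).toSphere.prod
            (.volumeIoiPow (Module.finrank ℝ (Eu n) - 1))) := by
          rw [← (volume : Measure (Eu n)).measurePreserving_homeomorphUnitSphereProd.integral_comp
            (Homeomorph.measurableEmbedding _)]
          congr 1
          ext x
          have hx : ‖(x : Eu n)‖ ≠ 0 := norm_ne_zero_iff.2 x.2
          congr 1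
          simp [smul_smul, hx]
      _ = ∫ z : sphere (0 : Eu n) 1 × Ioi (0:ℝ), supp K z.1.1 *
          (z.2.1 * Real.exp (-z.2.1 ^ 2)) ∂((volume : Measure (Eu n)).toSphere.prod
            (.volumeIoiPow (Module.finrank ℝ (Eu n) - 1))) := by
          congr 1
          ext z
          have h1 : 0 < z.2.1 := z.2.2
          have h2 : ‖z.2.1 • z.1.1‖ = z.2.1 := by
            rw [norm_smul, Real.norm_eq_abs, abs_of_pos h1]
            simp
          simp only [hf]
          rw [h2, supp_smul hK hne h1]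
          ring
      _ = _ := integral_prod_mul (fun u : sphere (0 : Eu n) 1 => supp K u.1)
            (fun r : Ioi (0:ℝ) => (r : ℝ) * Real.exp (-(r:ℝ) ^ 2))
  · have hs : Subsingleton (Eu n) := not_nontrivial_iff_subsingleton.1 hn
    have h1 : ∀ v : Eu n, supp K v = 0 := by
      intro v
      obtain ⟨y, hy, h⟩ := supp_attained hK hne v
      rw [← h, Subsingleton.elim v 0, inner_zero_right]
    have h2 : V K = 0 := by
      unfold V
      simp [h1]
    rw [h2]
    simp [h1]

lemma cst_ne (hn : 1 ≤ n) : cst n ≠ 0 := by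
  intro h
  have h1 := V_polar (isCompact_closedBall (0 : Eu n) 1) ⟨0, by simp⟩
  rw [h, mul_zero] at h1
  have h2 : 0 < V (closedBall (0 : Eu n) 1) := by
    apply V_pos_of_interior hn (isCompact_closedBall (0 : Eu n) 1)
    refine ⟨0, ?_⟩
    rw [interior_closedBall _ one_ne_zero]
    simp
  linarith

lemma width_iff (hn : 1 ≤ n) {K L : Set (Eu n)} (hK : IsCompact K) (hKne : K.Nonempty)
    (hL : IsCompact L) (hLne : L.Nonempty) : meanWidth K = meanWidth L ↔ V K = V L := by
  have hc := cst_ne hn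
  have h1 := V_polar hK hKne
  have h2 := V_polar hL hLne
  have hκ : (volume (ball (0 : Eu n) 1)).toReal ≠ 0 := by
    rw [ENNReal.toReal_ne_zero]
    exact ⟨(measure_ball_pos _ _ one_pos).ne', measure_ball_lt_top.ne⟩
  have hn0 : (n : ℝ) ≠ 0 := by positivity
  have hcoef : (2 : ℝ) / (n * (volume (ball (0 : Eu n) 1)).toReal) ≠ 0 := by positivity
  have e1 : meanWidth K = 2 / (n * (volume (ball (0 : Eu n) 1)).toReal) *
    ∫ u : sphere (0 : Eu n) 1, supp K (u : Eu n) ∂((volume : Measure (Eu n)).toSphere) := rfl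
  have e2 : meanWidth L = 2 / (n * (volume (ball (0 : Eu n) 1)).toReal) *
    ∫ u : sphere (0 : Eu n) 1, supp L (u : Eu n) ∂((volume : Measure (Eu n)).toSphere) := rfl
  rw [e1, e2, h1, h2]
  constructor
  · intro h
    rw [mul_left_cancel₀ hcoef h]
  · intro h
    rw [mul_right_cancel₀ hc h]

/-- The axioms of the problem: `D` maps the class to its `H`-symmetric members, is monotonic,
preserves mean width and fixes every `H`-symmetric member of the class. The class is that of all
nonempty compact convex sets (`b = false`) or of all convex bodies (`b = true`). -/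
structure IsSymm (H : Submodule ℝ (Eu n)) (b : Bool) (D : Set (Eu n) → Set (Eu n)) : Prop where
  body : ∀ K, Bd b K → Bd b (D K)
  symm : ∀ K, Bd b K → HS H (D K)
  mono : ∀ K L, Bd b K → Bd b L → K ⊆ L → D K ⊆ D L
  width : ∀ K, Bd b K → meanWidth (D K) = meanWidth K
  fix : ∀ K, Bd b K → HS H K → D K = K

lemma isSymm_iff (hn : 1 ≤ n) {H : Submodule ℝ (Eu n)} {b : Bool}
    {D : Set (Eu n) → Set (Eu n)} : IsSymm H b D ↔ Ops H b D := by
  constructor
  · rintro ⟨h1, h2, h3, h4, h5⟩
    exact ⟨h1, h2, h3, fun K hK => (width_iff hn (h1 K hK).1 (h1 K hK).2.2.1 hK.1 hK.2.2.1).1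
      (h4 K hK), h5⟩
  · rintro ⟨h1, h2, h3, h4, h5⟩
    exact ⟨h1, h2, h3, fun K hK => (width_iff hn (h1 K hK).1 (h1 K hK).2.2.1 hK.1 hK.2.2.1).2
      (h4 K hK), h5⟩

/-- For `H = {o}` there is a symmetrization with the required properties. -/
lemma exotic (hn : 2 ≤ n) (b : Bool) : ∃ D : Set (Eu n) → Set (Eu n), IsSymm ⊥ b D ∧
    ∃ K : Set (Eu n), Bd b K ∧ HS ⊥ K ∧ ∃ y ∈ (⊥ : Submodule ℝ (Eu n))ᗮ,
      D ((fun z : Eu n => z + y) '' K) ≠ D K := by
  obtain ⟨D, h1, h2, h3, h4, x, hx⟩ := general n hn b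
  have hHS : ∀ K : Set (Eu n), HS ⊥ K ↔ ∀ x ∈ K, -x ∈ K := by
    intro K
    unfold HS
    rw [Submodule.reflection_bot]
    rfl
  have hball : Bd b (closedBall (0 : Eu n) 1) := by
    refine ⟨isCompact_closedBall 0 1, convex_closedBall 0 1, ⟨0, by simp⟩, fun _ => ⟨0, ?_⟩⟩
    rw [interior_closedBall _ one_ne_zero]
    simp
  have hbs : ∀ x ∈ closedBall (0 : Eu n) 1, -x ∈ closedBall (0 : Eu n) 1 := by
    intro x hx
    simpa using hx
  refine ⟨D, ?_, closedBall (0 : Eu n) 1, hball, (hHS _).2 hbs, x, by simp, ?_⟩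
  · rw [isSymm_iff (by omega)]
    refine ⟨fun K hK => (h1 K hK).1, fun K hK => (hHS _).2 (h1 K hK).2, h2, ?_, ?_⟩
    · intro K hK
      exact h3 K hK
    · intro K hK hs
      exact h4 K hK ((hHS K).1 hs)
  · rw [h4 _ hball hbs]
    exact hx

end Pool.Agent.Q166.MW
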